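import Pool.Agent.helper96.SV.SpecA

/-! Project sva: (MP_b5a345_ag): module MU: the choice of the basis. -/

set_option autoImplicit false

namespace Pool.Agent.SVA

open Polynomial Module

theorem MU_prod {K : Type} [Fintype K] [DecidableEq K] {m : K → ℕ} (i : K) (j : Fin (m i + 1))
    (f : (i' : K) → Fin (m i' + 1) → ℂ) :
    ∏ i', f i' (Function.update (fun _ => 0 : Bx m) i j i') =
      f i j * ∏ i' ∈ Finset.univ.erase i, f i' 0 := by
  rw [← Finset.mul_prod_erase Finset.univ _ (Finset.mem_univ i), Function.update_self]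
  congr 1
  refine Finset.prod_congr rfl fun i' hi' => ?_
  rw [Function.update_of_ne (Finset.ne_of_mem_erase hi')]

theorem MU (h2 : MU2_stmt) (h3 : MU3_stmt) : MU_stmt := by
  intro K _ _ m hK hm φ z hφ hz
  obtain ⟨a, b, hab, hne⟩ := h2 hK hm φ z hφ hz
  choose g hg hga hgb using fun i => h3 (m i) (a i) (b i) (hab i)
  refine ⟨g, hg, fun _ => 0, ?_⟩
  set w : Bx m → ℂ := fun β => gt g φ β * gz (fun i => (g i)⁻¹) z β with hw
  have hw0 : w (fun _ => 0) = pr φ (ten a) * pr (ten b) z := by
    simp only [hw, gt, gz, pr, ten]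
    congr 1
    · refine Finset.sum_congr rfl fun β _ => ?_
      rw [mul_comm]
      congr 1
      exact Finset.prod_congr rfl fun i _ => hga i _
    · refine Finset.sum_congr rfl fun γ _ => ?_
      congr 1
      exact Finset.prod_congr rfl fun i _ => hgb i _
  have hTh : ∀ i, ∑ j, w (Function.update (fun _ => 0) i j) = Th φ z a b i := by
    intro i
    have e1 : ∀ j, gt g φ (Function.update (fun _ => 0) i j) =
        ∑ β : Bx m, g i (β i) j * (∏ i' ∈ Finset.univ.erase i, a i' (β i')) * φ β := by
      intro j
      simp only [gt]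
      refine Finset.sum_congr rfl fun β _ => ?_
      rw [MU_prod i j (fun i' k => g i' (β i') k)]
      simp only [hga]
    have e2 : ∀ j, gz (fun i => (g i)⁻¹) z (Function.update (fun _ => 0) i j) =
        ∑ γ : Bx m, (g i)⁻¹ j (γ i) * (∏ i' ∈ Finset.univ.erase i, b i' (γ i')) * z γ := by
      intro j
      simp only [gz]
      refine Finset.sum_congr rfl fun γ _ => ?_
      rw [MU_prod i j (fun i' k => (g i')⁻¹ k (γ i'))]
      simp only [hgb]
    have e3 : ∀ x y : Fin (m i + 1), ∑ j, g i x j * (g i)⁻¹ j y = if x = y then 1 else 0 := by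
      intro x y
      have := congrFun (congrFun (Matrix.mul_nonsing_inv (g i) (hg i)) x) y
      rwa [Matrix.mul_apply, Matrix.one_apply] at this
    calc ∑ j, w (Function.update (fun _ => 0) i j)
        = ∑ j, ∑ β : Bx m, ∑ γ : Bx m,
            (g i (β i) j * (g i)⁻¹ j (γ i)) * (φ β * z γ *
              ∏ i' ∈ Finset.univ.erase i, (a i' (β i') * b i' (γ i'))) := by
          refine Finset.sum_congr rfl fun j _ => ?_
          simp only [hw]
          rw [e1, e2, Finset.sum_mul_sum]
          refine Finset.sum_congr rfl fun β _ => Finset.sum_congr rfl fun γ _ => ?_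
          rw [Finset.prod_mul_distrib]
          ring
      _ = ∑ β : Bx m, ∑ γ : Bx m, ∑ j,
            (g i (β i) j * (g i)⁻¹ j (γ i)) * (φ β * z γ *
              ∏ i' ∈ Finset.univ.erase i, (a i' (β i') * b i' (γ i'))) := by
          rw [Finset.sum_comm]
          exact Finset.sum_congr rfl fun β _ => Finset.sum_comm
      _ = Th φ z a b i := by
          unfold Th
          refine Finset.sum_congr rfl fun β _ => Finset.sum_congr rfl fun γ _ => ?_
          rw [← Finset.sum_mul, e3]
          split_ifs
          · rw [one_mul]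
          · rw [zero_mul]
  have hMx : Mx w (fun _ => 0) = (2 - (Fintype.card K : ℂ)) * (pr φ (ten a) * pr (ten b) z) +
      ∑ i, Th φ z a b i := by
    unfold Mx
    have e4 : ∀ i : K, ∑ j ∈ Finset.univ.erase (0 : Fin (m i + 1)),
        w (Function.update (fun _ => 0) i j) = Th φ z a b i - w (fun _ => 0) := by
      intro i
      rw [← hTh i, ← Finset.add_sum_erase Finset.univ _ (Finset.mem_univ (0 : Fin (m i + 1)))]
      have : Function.update (fun _ => 0 : Bx m) i 0 = fun _ => 0 := Function.update_eq_self i _
      rw [this]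
      ring
    rw [Finset.sum_congr rfl fun i _ => e4 i, Finset.sum_sub_distrib, Finset.sum_const, hw0,
      Finset.card_univ, nsmul_eq_mul]
    ring
  rw [hMx]
  exact hne

end Pool.Agent.SVA
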